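import Pool.Agent.H56.FP.Weyl

set_option autoImplicit false

/-! The energy of the fractional parts of a real polynomial. -/

namespace Pool.Agent.H56.FP
open Finset Polynomial
open Pool.Agent.H373R2.NB (sort_sum)
open Pool.Agent.H469R2.NK (e norm_e e_add conj_e)
open Pool.Agent.Q56.TF (Sx Sx_le Sx_neg Om renergy sum_Om dbl ker_low diff_sum e_zero)

/-- high moments of the exponential sums -/
theorem moment (d : ℕ) (hd : 1 ≤ d) : ∃ p : ℕ, 1 ≤ p ∧ ∃ C : ℝ, 1 ≤ C ∧ ∀ g : ℝ[X], g.natDegree ≤ d →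
    ∀ (L : ℝ) (N M q x : ℕ) (a : ℤ), 1 ≤ L → 1 ≤ N → 1 ≤ q → 1 ≤ x → IsCoprime a (q : ℤ) →
    |g.coeff d - a / q| ≤ 1 / (q : ℝ) ^ 2 → (N : ℝ) ≤ L * q → (q : ℝ) ≤ L * N → (M : ℝ) ≤ L * N →
    (N : ℝ) ≤ L * (x : ℝ) ^ d →
    ∑ t ∈ range M, ‖Sx x (fun n => g.eval (n : ℝ)) (t : ℕ)‖ ^ (2 * p) ≤ C * L ^ 8 * (x : ℝ) ^ (2 * p) := by
  obtain ⟨c, m, hc, hm, hcount⟩ := count d hd
  have hc1 : (1 : ℝ) ≤ c := by exact_mod_cast hc
  have hs : Summable (fun n : ℕ => 1 / ((n : ℝ) + 1) ^ 2) := by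
    have h1 : Summable (fun n : ℕ => 1 / (n : ℝ) ^ 2) := Real.summable_one_div_nat_pow.2 (by norm_num)
    have h2 := (summable_nat_add_iff 1).2 h1
    simpa using h2
  set S : ℝ := ∑' n : ℕ, 1 / ((n : ℝ) + 1) ^ 2 with hS
  have hS0 : 0 < S := hs.tsum_pos (fun n => by positivity) 0 (by norm_num)
  refine ⟨m, hm, c ^ 2 * S + 1, by nlinarith [sq_nonneg (c : ℝ)], fun g hg L N M q x a hL hN hq hx hcop hα hNq hqN hMN hNx => ?_⟩
  have hx0 : (0 : ℝ) < x := by exact_mod_cast hx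
  obtain ⟨K, hK⟩ : ∃ K : ℝ, K = c * L ^ 4 := ⟨_, rfl⟩
  have hK0 : 0 ≤ K := by rw [hK]; positivity
  set s : ℕ → ℝ := fun t => ‖Sx x (fun n => g.eval (n : ℝ)) (t : ℕ)‖ / x with hs'
  have hs0 : ∀ t, 0 ≤ s t := fun t => by simp only [hs']; positivity
  have hs1 : ∀ t, s t ≤ 1 := by
    intro t
    simp only [hs']
    rw [div_le_one hx0]
    exact Sx_le _ _ _
  have hsort := sort_sum (fun t => s t ^ (2 * m)) (range M) (fun n => K ^ 2 * (1 / (n : ℝ) ^ 2)) (by
    intro X hX hXne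
    obtain ⟨t, ht, hmin⟩ := exists_min_image X s hXne
    refine ⟨t, ht, ?_⟩
    have hn0 : (0 : ℝ) < #X := by exact_mod_cast card_pos.2 hXne
    rcases (hs0 t).eq_or_lt with h0 | h0
    · rw [← h0, zero_pow (by omega)]; positivity
    · have h1 : 1 ≤ 1 / s t := by rw [le_div_iff₀ h0]; linarith [hs1 t]
      have h2 := hcount g hg L N M q x a hL hN hq hx hcop hα hNq hqN hMN hNx (1 / s t) h1
      have h3 : X ⊆ (range M).filter (fun t' : ℕ => (x : ℝ) ≤ (1 / s t) *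
          ‖Sx x (fun n => g.eval (n : ℝ)) (t' : ℕ)‖) := by
        intro t' ht'
        rw [mem_filter]
        refine ⟨hX ht', ?_⟩
        have h4 := hmin t' ht'
        have h5 : ‖Sx x (fun n => g.eval (n : ℝ)) (t' : ℕ)‖ = s t' * x := by
          simp only [hs']; field_simp
        rw [h5, one_div, ← mul_assoc, inv_mul_eq_div]
        have h6 : 1 ≤ s t' / s t := by rw [le_div_iff₀ h0, one_mul]; exact h4
        nlinarith
      have h4 : (#X : ℝ) ≤ K * (1 / s t) ^ m := by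
        rw [hK]
        exact le_trans (by exact_mod_cast card_le_card h3) h2
      have h5 : s t ^ m ≤ K / #X := by
        rw [le_div_iff₀ hn0]
        rw [one_div, inv_pow, ← div_eq_mul_inv, le_div_iff₀ (by positivity)] at h4
        linarith
      calc s t ^ (2 * m) = (s t ^ m) ^ 2 := by rw [← pow_mul, mul_comm]
        _ ≤ (K / #X) ^ 2 := pow_le_pow_left₀ (by positivity) h5 2
        _ = _ := by rw [div_pow]; ring)
  have h1 : ∑ t ∈ range M, s t ^ (2 * m) ≤ K ^ 2 * S := by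
    refine hsort.trans ?_
    rw [← mul_sum]
    apply mul_le_mul_of_nonneg_left _ (by positivity)
    push_cast
    exact hs.sum_le_tsum _ (fun n _ => by positivity)
  have h2 : ∑ t ∈ range M, ‖Sx x (fun n => g.eval (n : ℝ)) (t : ℕ)‖ ^ (2 * m) =
      (∑ t ∈ range M, s t ^ (2 * m)) * (x : ℝ) ^ (2 * m) := by
    rw [sum_mul]
    apply sum_congr rfl
    intro t _
    rw [← mul_pow]
    congr 1
    simp only [hs']
    field_simp
  rw [h2]
  apply mul_le_mul_of_nonneg_right _ (by positivity)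
  refine h1.trans ?_
  rw [hK]
  have h3 : (0 : ℝ) ≤ L ^ 8 := by positivity
  calc ((c : ℝ) * L ^ 4) ^ 2 * S = c ^ 2 * S * L ^ 8 := by ring
    _ ≤ _ := by
      apply mul_le_mul_of_nonneg_right _ h3
      linarith

lemma e_int (n : ℤ) : e (n : ℝ) = 1 := by
  unfold e
  have : ((2 * Real.pi * (n : ℝ) : ℝ) : ℂ) * Complex.I = n * (2 * Real.pi * Complex.I) := by
    push_cast
    ring
  rw [this]
  exact Complex.exp_int_mul_two_pi_mul_I n

/-- the energy of the dilated fractional parts is bounded by the moments of the exponential sums -/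
lemma fract_count (p x J : ℕ) (hJ : 1 ≤ J) (r : ℕ → ℝ) (β y : ℝ) (hy : 6 * J ≤ y) :
    (renergy p x (fun m => β + y * Int.fract (r m)) : ℝ) * J ≤ 8 * ∑ j ∈ range J, ‖Sx x r (j : ℕ)‖ ^ (2 * p) := by
  classical
  have hJ0 : (0 : ℝ) < J := by exact_mod_cast hJ
  have hy0 : 0 < y := by linarith
  obtain ⟨R, hR⟩ : ∃ R : (Fin p → ℕ) → ℝ, R = fun v => ∑ i, r (v i) := ⟨_, rfl⟩
  -- the lower bound
  have low : (renergy p x (fun m => β + y * Int.fract (r m)) : ℝ) * ((J : ℝ) ^ 2 / 4) ≤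
      ∑ v ∈ Om p x, ∑ w ∈ Om p x, ‖∑ j ∈ range J, e (1 * ((j : ℝ) * (R v - R w)))‖ ^ 2 := by
    rw [← sum_product' (f := fun v w => ‖∑ j ∈ range J, e (1 * ((j : ℝ) * (R v - R w)))‖ ^ 2)]
    unfold renergy
    rw [← nsmul_eq_mul, ← sum_const]
    refine le_trans (sum_le_sum (f := fun _ => (J : ℝ) ^ 2 / 4)
      (g := fun q : (Fin p → ℕ) × (Fin p → ℕ) => ‖∑ j ∈ range J, e (1 * ((j : ℝ) * (R q.1 - R q.2)))‖ ^ 2) ?_) ?_
    · intro q hq
      rw [mem_filter] at hq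
      obtain ⟨t, ht⟩ : ∃ t : ℝ, t = ∑ i, Int.fract (r (q.1 i)) - ∑ i, Int.fract (r (q.2 i)) := ⟨_, rfl⟩
      have h1 : |y * t| ≤ 1 := by
        have e1 : y * t = ∑ i, (β + y * Int.fract (r (q.1 i))) - ∑ i, (β + y * Int.fract (r (q.2 i))) := by
          rw [ht, sum_add_distrib, sum_add_distrib, ← mul_sum, ← mul_sum]
          ring
        rw [e1]
        exact hq.2
      have h2 : |6 * J * t| ≤ 1 := by
        rw [abs_mul] at h1 ⊢
        rw [abs_of_pos hy0] at h1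
        rw [abs_of_pos (by positivity)]
        exact (mul_le_mul_of_nonneg_right hy (abs_nonneg t)).trans h1
      have h3 := ker_low J hJ (6 * J * t) h2
      refine h3.trans (le_of_eq ?_)
      congr 2
      apply sum_congr rfl
      intro j _
      obtain ⟨z, hz⟩ : ∃ z : ℤ, (z : ℝ) = j * ((R q.1 - R q.2) - t) := by
        refine ⟨(j : ℤ) * (∑ i, ⌊r (q.1 i)⌋ - ∑ i, ⌊r (q.2 i)⌋), ?_⟩
        rw [hR, ht]
        push_cast
        have e1 : ∀ v : Fin p → ℕ, ∑ i, r (v i) = ∑ i, (⌊r (v i)⌋ : ℝ) + ∑ i, Int.fract (r (v i)) := by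
          intro v
          rw [← sum_add_distrib]
          apply sum_congr rfl
          intro i _
          exact (Int.floor_add_fract _).symm
        rw [e1, e1]
        ring
      have e2 : 1 * ((j : ℝ) * (R q.1 - R q.2)) = 1 * ((j : ℝ) * (1 / (6 * J)) * (6 * J * t)) + z := by
        rw [hz]
        field_simp
        ring
      rw [e2, e_add, e_int, mul_one]
    · apply sum_le_sum_of_subset_of_nonneg (filter_subset _ _)
      intro _ _ _
      positivity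
  -- the identity
  have key : ∑ v ∈ Om p x, ∑ w ∈ Om p x, ‖∑ j ∈ range J, e (1 * ((j : ℝ) * (R v - R w)))‖ ^ 2 =
      ∑ j ∈ range J, ∑ j' ∈ range J, ‖Sx x r (((j : ℝ) - j') * 1)‖ ^ (2 * p) := by
    have hC : ((∑ v ∈ Om p x, ∑ w ∈ Om p x, ‖∑ j ∈ range J, e (1 * ((j : ℝ) * (R v - R w)))‖ ^ 2 : ℝ) : ℂ) =
        ((∑ j ∈ range J, ∑ j' ∈ range J, ‖Sx x r (((j : ℝ) - j') * 1)‖ ^ (2 * p) : ℝ) : ℂ) := by
      rw [Complex.ofReal_sum, Complex.ofReal_sum]
      have e1 : ∀ v ∈ Om p x, (((∑ w ∈ Om p x, ‖∑ j ∈ range J, e (1 * ((j : ℝ) * (R v - R w)))‖ ^ 2) : ℝ) : ℂ) =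
          ∑ w ∈ Om p x, ∑ j ∈ range J, ∑ j' ∈ range J, e (((j : ℝ) - j') * 1 * (R v - R w)) := by
        intro v _
        rw [Complex.ofReal_sum]
        apply sum_congr rfl
        intro w _
        rw [← dbl (range J) (fun j : ℕ => (j : ℝ) * (R v - R w)) 1]
        apply sum_congr rfl
        intro j _
        apply sum_congr rfl
        intro j' _
        congr 1
        ring
      rw [sum_congr rfl e1]
      have e2 : ∀ j ∈ range J, (((∑ j' ∈ range J, ‖Sx x r (((j : ℝ) - j') * 1)‖ ^ (2 * p)) : ℝ) : ℂ) =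
          ∑ j' ∈ range J, ∑ v ∈ Om p x, ∑ w ∈ Om p x, e (((j : ℝ) - j') * 1 * (R v - R w)) := by
        intro j _
        rw [Complex.ofReal_sum]
        apply sum_congr rfl
        intro j' _
        rw [dbl (Om p x) R (((j : ℝ) - j') * 1)]
        have : ∑ v ∈ Om p x, e (((j : ℝ) - j') * 1 * R v) = Sx x r (((j : ℝ) - j') * 1) ^ p := by
          rw [hR]
          exact sum_Om p x r _
        rw [this, norm_pow, ← pow_mul, mul_comm p 2]
      rw [sum_congr rfl e2]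
      -- exchange
      calc ∑ v ∈ Om p x, ∑ w ∈ Om p x, ∑ j ∈ range J, ∑ j' ∈ range J, e (((j : ℝ) - j') * 1 * (R v - R w))
          = ∑ v ∈ Om p x, ∑ j ∈ range J, ∑ w ∈ Om p x, ∑ j' ∈ range J, e (((j : ℝ) - j') * 1 * (R v - R w)) :=
            sum_congr rfl fun _ _ => sum_comm
        _ = ∑ j ∈ range J, ∑ v ∈ Om p x, ∑ w ∈ Om p x, ∑ j' ∈ range J, e (((j : ℝ) - j') * 1 * (R v - R w)) := sum_comm
        _ = ∑ j ∈ range J, ∑ v ∈ Om p x, ∑ j' ∈ range J, ∑ w ∈ Om p x, e (((j : ℝ) - j') * 1 * (R v - R w)) :=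
            sum_congr rfl fun _ _ => sum_congr rfl fun _ _ => sum_comm
        _ = ∑ j ∈ range J, ∑ j' ∈ range J, ∑ v ∈ Om p x, ∑ w ∈ Om p x, e (((j : ℝ) - j') * 1 * (R v - R w)) :=
            sum_congr rfl fun _ _ => sum_comm
    exact_mod_cast hC
  rw [key] at low
  have h2 := diff_sum J (fun t => ‖Sx x r t‖ ^ (2 * p)) (fun t => by positivity)
    (fun t => by rw [Sx_neg]) 1
  have h3 := low.trans h2
  have h4 : (renergy p x (fun m => β + y * Int.fract (r m)) : ℝ) * J * (J / 4) ≤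
      8 * (∑ j ∈ range J, ‖Sx x r (j : ℕ)‖ ^ (2 * p)) * (J / 4) := by
    calc (renergy p x (fun m => β + y * Int.fract (r m)) : ℝ) * J * (J / 4) =
          (renergy p x (fun m => β + y * Int.fract (r m)) : ℝ) * ((J : ℝ) ^ 2 / 4) := by ring
      _ ≤ _ := h3
      _ = _ := by
        have : ∀ j : ℕ, Sx x r ((j : ℝ) * 1) = Sx x r (j : ℕ) := fun j => by rw [mul_one]
        simp only [this]
        ring
  exact le_of_mul_le_mul_right h4 (by positivity)

/-- the energy of the dilated fractional parts of a polynomial -/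
theorem energy (d : ℕ) (hd : 1 ≤ d) (B C : ℕ) : ∃ p C' N₀ : ℕ, 1 ≤ p ∧ ∀ N : ℕ, N₀ ≤ N → ∀ g : ℝ[X], g.natDegree ≤ d →
    ∀ (q x : ℕ) (a : ℤ) (β y : ℝ), 1 ≤ q → 1 ≤ x → IsCoprime a (q : ℤ) →
    |g.coeff d - a / q| ≤ 1 / (q : ℝ) ^ 2 → (N : ℝ) ≤ Real.log N ^ C * q → (q : ℝ) ≤ Real.log N ^ C * N →
    (N : ℝ) ≤ Real.log N ^ C * (x : ℝ) ^ d → (N : ℝ) ≤ Real.log N ^ C * y → y ≤ B * N →
    (renergy p x (fun m => β + y * Int.fract (g.eval (m : ℝ))) : ℝ) * N ≤ Real.log N ^ C' * (x : ℝ) ^ (2 * p) := by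
  obtain ⟨p, hp, D, hD, hmom⟩ := moment d hd
  -- conditions for large `N`
  have hlog : Filter.Tendsto (fun N : ℕ => Real.log N) Filter.atTop Filter.atTop :=
    Real.tendsto_log_atTop.comp tendsto_natCast_atTop_atTop
  have hsm : ∀ᶠ N : ℕ in Filter.atTop, 12 * Real.log N ^ (C + 1) ≤ N := by
    have h1 : Filter.Tendsto (fun N : ℕ => Real.log N ^ (C + 1) / N) Filter.atTop (nhds 0) := by
      have := (Real.isLittleO_pow_log_id_atTop (n := C + 1)).tendsto_div_nhds_zero.comp tendsto_natCast_atTop_atTop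
      exact this
    have h2 := h1.eventually (gt_mem_nhds (show (0 : ℝ) < 1 / 12 by norm_num))
    filter_upwards [h2, Filter.eventually_ge_atTop 1] with N hN hN1
    have : (0 : ℝ) < N := by exact_mod_cast hN1
    rw [div_lt_iff₀ this] at hN
    linarith
  obtain ⟨N₀, hN₀⟩ := Filter.eventually_atTop.1
    ((hlog.eventually_ge_atTop (B + 96 * D + 1)).and hsm)
  refine ⟨p, (9 * (C + 1) + 1), max N₀ 1, hp, fun N hN g hg q x a β y hq hx hcop hα hNq hqN hNx hNy hyB => ?_⟩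
  obtain ⟨hl, hN12⟩ := hN₀ N ((le_max_left _ _).trans hN)
  have hN1 : 1 ≤ N := (le_max_right _ _).trans hN
  have hN0 : (0 : ℝ) < N := by exact_mod_cast hN1
  have hB0 : (0 : ℝ) ≤ B := Nat.cast_nonneg B
  have hl1 : 1 ≤ Real.log N := by linarith
  have hlB : B ≤ Real.log N := by linarith
  have hlD : 96 * D ≤ Real.log N := by linarith
  obtain ⟨L, hL⟩ : ∃ L : ℝ, L = Real.log N ^ (C + 1) := ⟨_, rfl⟩
  have hL1 : 1 ≤ L := by rw [hL]; exact one_le_pow₀ hl1
  have hCL : Real.log N ^ C ≤ L := by rw [hL]; exact pow_le_pow_right₀ hl1 (by omega)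
  have hlL : Real.log N ≤ L := by
    rw [hL]
    calc Real.log N = Real.log N ^ 1 := (pow_one _).symm
      _ ≤ _ := pow_le_pow_right₀ hl1 (by omega)
  have hq0 : (0 : ℝ) < q := by exact_mod_cast hq
  have hx0 : (0 : ℝ) < x := by exact_mod_cast hx
  have hLy : (N : ℝ) / L ≤ y := by
    have hy0 : 0 < y := by
      by_contra hcon
      push Not at hcon
      have : Real.log N ^ C * y ≤ 0 := mul_nonpos_of_nonneg_of_nonpos (by positivity) hcon
      linarith
    rw [div_le_iff₀ (by linarith)]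
    calc (N : ℝ) ≤ Real.log N ^ C * y := hNy
      _ ≤ L * y := mul_le_mul_of_nonneg_right hCL hy0.le
      _ = _ := mul_comm _ _
  have hy12 : 12 ≤ y := by
    refine le_trans ?_ hLy
    rw [le_div_iff₀ (by linarith), hL]
    exact hN12
  obtain ⟨M, hM⟩ : ∃ M : ℕ, M = ⌊y / 6⌋₊ := ⟨_, rfl⟩
  have hM1 : 1 ≤ M := by rw [hM]; exact Nat.le_floor (by push_cast; linarith)
  have hM2 : 6 * (M : ℝ) ≤ y := by
    have := Nat.floor_le (show 0 ≤ y / 6 by linarith)
    rw [← hM] at this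
    linarith
  have hM3 : y ≤ 12 * M := by
    have := Nat.lt_floor_add_one (y / 6)
    rw [← hM] at this
    have h1 : (1 : ℝ) ≤ M := by exact_mod_cast hM1
    linarith
  have hMN : (M : ℝ) ≤ L * N := by
    have h1 : (M : ℝ) ≤ B * N := by
      have : (0 : ℝ) ≤ M := Nat.cast_nonneg M
      linarith
    exact h1.trans (mul_le_mul_of_nonneg_right (hlB.trans hlL) hN0.le)
  have h1 := hmom g hg L N M q x a hL1 hN1 hq hx hcop hα (hNq.trans (mul_le_mul_of_nonneg_right hCL hq0.le))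
    (hqN.trans (mul_le_mul_of_nonneg_right hCL hN0.le)) hMN
    (hNx.trans (mul_le_mul_of_nonneg_right hCL (by positivity)))
  have h2 := fract_count p x M hM1 (fun n => g.eval (n : ℝ)) β y hM2
  obtain ⟨Y, hY⟩ : ∃ Y : ℝ, Y = (renergy p x (fun m => β + y * Int.fract (g.eval (m : ℝ))) : ℝ) := ⟨_, rfl⟩
  rw [← hY] at h2 ⊢
  have hY0 : 0 ≤ Y := by rw [hY]; exact Nat.cast_nonneg _
  have h3 : Y * M ≤ 8 * (D * L ^ 8 * (x : ℝ) ^ (2 * p)) := h2.trans (by linarith)
  have hNM : (N : ℝ) ≤ 12 * L * M := by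
    rw [div_le_iff₀ (by linarith)] at hLy
    calc (N : ℝ) ≤ y * L := hLy
      _ ≤ 12 * M * L := mul_le_mul_of_nonneg_right hM3 (by linarith)
      _ = _ := by ring
  calc Y * N ≤ Y * (12 * L * M) := mul_le_mul_of_nonneg_left hNM hY0
    _ = 12 * L * (Y * M) := by ring
    _ ≤ 12 * L * (8 * (D * L ^ 8 * (x : ℝ) ^ (2 * p))) := mul_le_mul_of_nonneg_left h3 (by positivity)
    _ = (96 * D) * (L ^ 9 * (x : ℝ) ^ (2 * p)) := by ring
    _ ≤ Real.log N * (L ^ 9 * (x : ℝ) ^ (2 * p)) := mul_le_mul_of_nonneg_right hlD (by positivity)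
    _ = _ := by rw [hL]; ring

end Pool.Agent.H56.FP
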