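import Pool.Graph.R_seed8.H373R2.NB.WeylSum
import Pool.Graph.R_pool_sql_team_seeded_2aa45f1a.Q56.TF.Fou

set_option autoImplicit false

/-! The number of the multiples of a real polynomial with a large exponential sum. -/

namespace Pool.Agent.H56.FP
open Finset Polynomial
open Pool.Agent.H373R2.NB (Ph IW IW_all Ph_succ sum_Icc_one sort_sum)
open Pool.Agent.Helper602.MK (ee)
open Pool.Agent.H469R2.NK (e)
open Pool.Agent.Q56.TF (Sx Sx_le)

lemma ee_eq (x : ℝ) : ee x = e x := by
  unfold ee e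
  push_cast
  rfl

/-- the phases of real polynomials -/
lemma Ph_real (d : ℕ) : ∀ f : ℝ[X], f.natDegree ≤ d → ∀ γ : ℝ,
    Ph d (γ * ((d.factorial : ℝ) * f.coeff d)) (fun n => γ * f.eval (n : ℝ)) := by
  induction d with
  | zero =>
    intro f hf γ n
    have h1 : f = C (f.coeff 0) := eq_C_of_natDegree_le_zero hf
    have h2 : f.eval (n : ℝ) = f.coeff 0 := by
      conv_lhs => rw [h1]
      rw [eval_C]
    show γ * f.eval (n : ℝ) = _
    rw [h2]; simp
  | succ d ih =>
    intro f hf γ h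
    set g : ℝ[X] := taylor (h : ℝ) f - f with hg
    have hcoef : ∀ j, d ≤ j → (taylor (h : ℝ) f).coeff j = f.coeff j + (if j = d then ((d : ℝ) + 1) * f.coeff (d + 1) * h else 0) := by
      intro j hj
      rw [taylor_coeff]
      have h1 : (hasseDeriv j f).natDegree < 2 := by
        have := natDegree_hasseDeriv_le f j
        omega
      rw [eval_eq_sum_range' h1, sum_range_succ, sum_range_succ, sum_range_zero, hasseDeriv_coeff, hasseDeriv_coeff]
      rcases eq_or_ne j d with h2 | h2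
      · subst h2
        rw [if_pos rfl, zero_add, zero_add, Nat.choose_self, add_comm 1 j, Nat.choose_succ_self_right]
        push_cast
        ring
      · rw [if_neg h2]
        have h3 : f.coeff (1 + j) = 0 := coeff_eq_zero_of_natDegree_lt (by omega)
        rw [h3, zero_add, zero_add, Nat.choose_self]
        push_cast
        ring
    have hgd : g.natDegree ≤ d := by
      rw [natDegree_le_iff_coeff_eq_zero]
      intro j hj
      rw [hg, coeff_sub, hcoef j (by omega), if_neg (by omega)]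
      ring
    have hgc : g.coeff d = ((d : ℝ) + 1) * f.coeff (d + 1) * h := by
      rw [hg, coeff_sub, hcoef d le_rfl, if_pos rfl]; ring
    have h1 := ih g hgd γ
    have h2 : (fun n : ℕ => γ * g.eval (n : ℝ)) = fun n : ℕ =>
        γ * f.eval ((n + h : ℕ) : ℝ) - γ * f.eval (n : ℝ) := by
      funext n
      rw [hg, eval_sub, taylor_eval]
      push_cast
      ring
    have h3 : γ * ((d.factorial : ℝ) * g.coeff d) = (h : ℝ) * (γ * (((d + 1).factorial : ℝ) * f.coeff (d + 1))) := by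
      rw [hgc, Nat.factorial_succ]; push_cast; ring
    rw [h2, h3] at h1
    exact h1

/-- the number of the integers in a block with a multiple of `α` near an integer -/
lemma block (α δ : ℝ) (hδ : 0 ≤ δ) (q : ℕ) (a : ℤ) (hq : 1 ≤ q) (hc : IsCoprime a (q : ℤ))
    (hα : |α - a / q| ≤ 1 / (q : ℝ) ^ 2) (b : ℕ) (S : Finset ℕ) (hS : ∀ k ∈ S, k / q = b ∧ |k * α - round (k * α)| ≤ δ) :
    (S.card : ℝ) ≤ 2 * (q * δ) + 3 := by
  have hq0 : (0 : ℝ) < q := by exact_mod_cast hq
  obtain ⟨θ, hθ⟩ : ∃ θ : ℝ, θ = (α - a / q) * q := ⟨_, rfl⟩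
  have hθ1 : |θ| ≤ 1 / q := by
    rw [hθ, abs_mul, abs_of_pos hq0]
    calc |α - a / q| * q ≤ 1 / (q : ℝ) ^ 2 * q := mul_le_mul_of_nonneg_right hα hq0.le
      _ = 1 / q := by field_simp
  have hαθ : α * q = a + θ := by rw [hθ]; field_simp; ring
  obtain ⟨c, hcc⟩ : ∃ c : ℝ, c = -((b : ℝ) * q * θ) := ⟨_, rfl⟩
  have hmap : ∀ k ∈ S, ((k : ℤ) * a - q * round (k * α)) ∈ Icc ⌈c - (q * δ + 1)⌉ ⌊c + (q * δ + 1)⌋ := by
    intro k hk
    obtain ⟨h1, h2⟩ := hS k hk
    have hk1 : b * q ≤ k := by rw [← h1]; exact Nat.div_mul_le_self k q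
    have hk2 : k < b * q + q := by
      have := Nat.lt_div_mul_add (a := k) (b := q) (by omega)
      rw [h1] at this
      exact this
    obtain ⟨j, hj⟩ : ∃ j : ℕ, k = b * q + j := ⟨k - b * q, by omega⟩
    have hj2 : j < q := by omega
    have e1 : (((k : ℤ) * a - q * round (k * α) : ℤ) : ℝ) - c = q * (k * α - round (k * α)) - j * θ := by
      rw [hcc]
      push_cast
      have : (q : ℝ) * (k * α) = k * (a + θ) := by rw [← hαθ]; ring
      have hkr : (k : ℝ) = b * q + j := by rw [hj]; push_cast; ring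
      have h3 : (q : ℝ) * (k * α - round (k * α)) - j * θ = k * (a + θ) - q * round (k * α) - j * θ := by
        rw [← this]; ring
      rw [h3]
      have h4 : (k : ℝ) * θ = b * q * θ + j * θ := by rw [hkr]; ring
      linarith [h4]
    have e2 : |(((k : ℤ) * a - q * round (k * α) : ℤ) : ℝ) - c| ≤ q * δ + 1 := by
      rw [e1]
      have h3 : |(q : ℝ) * (k * α - round (k * α))| ≤ q * δ := by
        rw [abs_mul, abs_of_pos hq0]
        exact mul_le_mul_of_nonneg_left h2 hq0.le
      have h4 : |(j : ℝ) * θ| ≤ 1 := by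
        rw [abs_mul, abs_of_nonneg (Nat.cast_nonneg j)]
        calc (j : ℝ) * |θ| ≤ q * (1 / q) := by
              apply mul_le_mul _ hθ1 (abs_nonneg _) hq0.le
              exact_mod_cast hj2.le
          _ = 1 := by field_simp
      exact (abs_sub _ _).trans (add_le_add h3 h4)
    rw [abs_le] at e2
    rw [mem_Icc, Int.ceil_le, Int.le_floor]
    constructor <;> linarith [e2.1, e2.2]
  have hinj : Set.InjOn (fun k : ℕ => ((k : ℤ) * a - q * round (k * α))) S := by
    intro k hk k' hk' hkk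
    simp only at hkk
    obtain ⟨h1, _⟩ := hS k hk
    obtain ⟨h2, _⟩ := hS k' hk'
    have hdiv : (q : ℤ) ∣ ((k : ℤ) - k') := by
      have h3 : (q : ℤ) ∣ ((k : ℤ) - k') * a := by
        refine ⟨round (k * α) - round (k' * α), ?_⟩
        linarith
      exact (hc.symm).dvd_of_dvd_mul_right h3
    have hk1 : b * q ≤ k := by rw [← h1]; exact Nat.div_mul_le_self k q
    have hk2 : k < b * q + q := by
      have := Nat.lt_div_mul_add (a := k) (b := q) (by omega)
      rw [h1] at this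
      exact this
    have hk1' : b * q ≤ k' := by rw [← h2]; exact Nat.div_mul_le_self k' q
    have hk2' : k' < b * q + q := by
      have := Nat.lt_div_mul_add (a := k') (b := q) (by omega)
      rw [h2] at this
      exact this
    have h4 : |(k : ℤ) - k'| < q := by
      rw [abs_lt]
      constructor <;> omega
    have h5 := Int.eq_zero_of_abs_lt_dvd hdiv h4
    omega
  have hcard : S.card ≤ (Icc ⌈c - (q * δ + 1)⌉ ⌊c + (q * δ + 1)⌋).card :=
    card_le_card_of_injOn _ hmap hinj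
  have h1 : ((Icc ⌈c - (q * δ + 1)⌉ ⌊c + (q * δ + 1)⌋).card : ℝ) ≤ 2 * (q * δ) + 3 := by
    rw [Int.card_Icc]
    have h2 : ((⌊c + (q * δ + 1)⌋ + 1 - ⌈c - (q * δ + 1)⌉).toNat : ℝ) ≤
        max ((⌊c + (q * δ + 1)⌋ + 1 - ⌈c - (q * δ + 1)⌉ : ℤ) : ℝ) 0 := by
      rw [← Int.cast_natCast, Int.toNat_eq_max]
      push_cast
      exact le_rfl
    refine h2.trans (max_le ?_ (by positivity))
    push_cast
    have h3 := Int.floor_le (c + (q * δ + 1))
    have h4 := Int.le_ceil (c - (q * δ + 1))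
    linarith
  exact (by exact_mod_cast hcard : (S.card : ℝ) ≤ _).trans h1

/-- the number of the integers up to `K` with a multiple of `α` near an integer -/
lemma spacing (α δ : ℝ) (hδ : 0 ≤ δ) (q : ℕ) (a : ℤ) (hq : 1 ≤ q) (hc : IsCoprime a (q : ℤ))
    (hα : |α - a / q| ≤ 1 / (q : ℝ) ^ 2) (K : ℕ) (S : Finset ℕ) (hS : ∀ k ∈ S, k ≤ K ∧ |k * α - round (k * α)| ≤ δ) :
    (S.card : ℝ) ≤ (2 * (q * δ) + 3) * (K / q + 1) := by
  classical
  have hq0 : (0 : ℝ) < q := by exact_mod_cast hq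
  have h1 := card_eq_sum_card_fiberwise (s := S) (t := range (K / q + 1)) (f := fun k => k / q) (by
    intro k hk
    have := (hS k hk).1
    simp only [coe_range, Set.mem_Iio]
    exact Nat.lt_succ_of_le (Nat.div_le_div_right this))
  have h2 : (S.card : ℝ) = ∑ b ∈ range (K / q + 1), ((S.filter (fun k => k / q = b)).card : ℝ) := by
    rw [h1]; push_cast; rfl
  rw [h2]
  calc ∑ b ∈ range (K / q + 1), ((S.filter (fun k => k / q = b)).card : ℝ)
      ≤ ∑ _b ∈ range (K / q + 1), (2 * (q * δ) + 3) := by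
        apply sum_le_sum
        intro b _
        apply block α δ hδ q a hq hc hα b
        intro k hk
        rw [mem_filter] at hk
        exact ⟨hk.2, (hS k hk.1).2⟩
    _ = (2 * (q * δ) + 3) * ((K / q + 1 : ℕ) : ℝ) := by
        rw [sum_const, card_range, nsmul_eq_mul, mul_comm]
    _ ≤ _ := by
        apply mul_le_mul_of_nonneg_left _ (by positivity)
        push_cast
        have : ((K / q : ℕ) : ℝ) ≤ K / q := Nat.cast_div_le
        linarith

/-- the number of frequencies with a large exponential sum -/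
theorem count (d : ℕ) (hd : 1 ≤ d) : ∃ c m : ℕ, 1 ≤ c ∧ 1 ≤ m ∧ ∀ g : ℝ[X], g.natDegree ≤ d →
    ∀ (L : ℝ) (N M q x : ℕ) (a : ℤ), 1 ≤ L → 1 ≤ N → 1 ≤ q → 1 ≤ x → IsCoprime a (q : ℤ) →
    |g.coeff d - a / q| ≤ 1 / (q : ℝ) ^ 2 → (N : ℝ) ≤ L * q → (q : ℝ) ≤ L * N → (M : ℝ) ≤ L * N →
    (N : ℝ) ≤ L * (x : ℝ) ^ d → ∀ u : ℝ, 1 ≤ u →
    (#((range M).filter (fun t : ℕ => (x : ℝ) ≤ u * ‖Sx x (fun n => g.eval (n : ℝ)) t‖)) : ℝ) ≤ c * L ^ 4 * u ^ m := by
  classical
  obtain ⟨c, m, hc, hI⟩ := IW_all d hd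
  refine ⟨15 * d.factorial * c ^ 3, 3 * m + 1, ?_, by omega, ?_⟩
  · have : 0 < 15 * d.factorial * c ^ 3 := by
      have := Nat.factorial_pos d
      positivity
    exact this
  intro g hg L N M q x a hL hN hq hx hcop hα hNq hqN hMN hNx u hu
  have hx0 : (0 : ℝ) < x := by exact_mod_cast hx
  have hN0 : (0 : ℝ) < N := by exact_mod_cast hN
  have hq0 : (0 : ℝ) < q := by exact_mod_cast hq
  have hL0 : 0 < L := by linarith
  have hc1 : (1 : ℝ) ≤ c := by exact_mod_cast hc
  obtain ⟨E, hE⟩ : ∃ E : ℝ, E = c * u ^ m := ⟨_, rfl⟩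
  have hE1 : 1 ≤ E := by rw [hE]; exact one_le_mul_of_one_le_of_one_le hc1 (one_le_pow₀ hu)
  have hf1 : (1 : ℝ) ≤ d.factorial := by exact_mod_cast Nat.factorial_pos d
  have hxd : (0 : ℝ) < (x : ℝ) ^ d := by positivity
  obtain ⟨δ, hδ⟩ : ∃ δ : ℝ, δ = E / (x : ℝ) ^ d := ⟨_, rfl⟩
  have hδ0 : 0 ≤ δ := by rw [hδ]; positivity
  obtain ⟨T, hT⟩ : ∃ T : Finset ℕ, T = (range M).filter (fun t : ℕ => (x : ℝ) ≤ u * ‖Sx x (fun n => g.eval (n : ℝ)) t‖) := ⟨_, rfl⟩
  rw [← hT]
  have hkey : ∀ t ∈ T, ∃ r : ℕ, 1 ≤ r ∧ (r : ℝ) ≤ E ∧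
      |((r * d.factorial * t : ℕ) : ℝ) * g.coeff d - round (((r * d.factorial * t : ℕ) : ℝ) * g.coeff d)| ≤ δ := by
    intro t ht
    rw [hT, mem_filter, mem_range] at ht
    obtain ⟨_, ht⟩ := ht
    have hph := Ph_succ _ _ _ (Ph_real d g hg (t : ℝ))
    have hsum : Sx x (fun n => g.eval (n : ℝ)) t =
        ∑ n ∈ range x, ee ((fun n : ℕ => (fun n : ℕ => (t : ℝ) * g.eval (n : ℝ)) (n + 1)) n) := by
      unfold Sx
      rw [sum_Icc_one]
      apply sum_congr rfl
      intro n _
      rw [ee_eq]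
    rw [hsum] at ht
    obtain ⟨r, hr1, hr2, a', ha'⟩ := hI x u _ _ hx hu hph ht
    refine ⟨r, hr1, by rw [hE]; exact hr2, ?_⟩
    have e1 : ((r * d.factorial * t : ℕ) : ℝ) * g.coeff d = r * (t * (d.factorial * g.coeff d)) := by
      push_cast; ring
    rw [e1]
    rw [← hE, ← hδ] at ha'
    exact (round_le _ a').trans ha'
  choose! r hr1 hr2 hr3 using hkey
  -- fibres over the denominators
  have h1 := card_eq_sum_card_fiberwise (s := T) (t := range (⌊E⌋₊ + 1)) (f := r) (by
    intro t ht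
    simp only [coe_range, Set.mem_Iio]
    exact Nat.lt_succ_of_le (Nat.le_floor (hr2 t ht)))
  obtain ⟨W, hW⟩ : ∃ W : ℝ, W = (2 * (q * δ) + 3) * (E * d.factorial * M / q + 1) := ⟨_, rfl⟩
  have hfib : ∀ s ∈ range (⌊E⌋₊ + 1), ((T.filter (fun t => r t = s)).card : ℝ) ≤ if s = 0 then 0 else W := by
    intro s hs
    rw [mem_range] at hs
    have hsE : (s : ℝ) ≤ E := by
      have : s ≤ ⌊E⌋₊ := by omega
      exact (by exact_mod_cast this : (s : ℝ) ≤ ⌊E⌋₊).trans (Nat.floor_le (by linarith))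
    by_cases hs0 : s = 0
    · rw [if_pos hs0]
      have : T.filter (fun t => r t = s) = ∅ := by
        rw [filter_eq_empty_iff]
        intro t ht h
        have := hr1 t ht
        omega
      rw [this]; simp
    · rw [if_neg hs0]
      have hinj : Set.InjOn (fun t : ℕ => s * d.factorial * t) (T.filter (fun t => r t = s)) := by
        intro t _ t' _ h
        simp only at h
        exact Nat.eq_of_mul_eq_mul_left (Nat.mul_pos (Nat.pos_of_ne_zero hs0) (Nat.factorial_pos d)) h
      rw [← card_image_of_injOn hinj]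
      have h2 := spacing (g.coeff d) δ hδ0 q a hq hcop hα (s * d.factorial * M)
        ((T.filter (fun t => r t = s)).image (fun t : ℕ => s * d.factorial * t)) (by
          intro k hk
          rw [mem_image] at hk
          obtain ⟨t, ht, rfl⟩ := hk
          rw [mem_filter] at ht
          obtain ⟨ht, hrs⟩ := ht
          constructor
          · apply Nat.mul_le_mul_left
            rw [hT, mem_filter, mem_range] at ht
            exact ht.1.le
          · have := hr3 t ht
            rw [hrs] at this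
            exact this)
      refine h2.trans ?_
      rw [hW]
      apply mul_le_mul_of_nonneg_left _ (by positivity)
      have h3 : ((s * d.factorial * M : ℕ) : ℝ) ≤ E * d.factorial * M := by
        push_cast
        apply mul_le_mul_of_nonneg_right _ (Nat.cast_nonneg _)
        exact mul_le_mul_of_nonneg_right hsE (Nat.cast_nonneg _)
      have := div_le_div_of_nonneg_right h3 hq0.le
      linarith
  have hW0 : 0 ≤ W := by rw [hW]; positivity
  have h2 : (T.card : ℝ) ≤ E * W := by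
    rw [h1]
    push_cast
    calc ∑ s ∈ range (⌊E⌋₊ + 1), ((T.filter (fun t => r t = s)).card : ℝ)
        ≤ ∑ s ∈ range (⌊E⌋₊ + 1), (if s = 0 then 0 else W) := sum_le_sum hfib
      _ = ∑ s ∈ range ⌊E⌋₊, W := by
          rw [sum_range_succ']
          simp
      _ = ⌊E⌋₊ * W := by rw [sum_const, card_range, nsmul_eq_mul]
      _ ≤ E * W := mul_le_mul_of_nonneg_right (Nat.floor_le (by linarith)) hW0
  have hqδ : (q : ℝ) * δ ≤ L ^ 2 * E := by
    rw [hδ]
    calc (q : ℝ) * (E / (x : ℝ) ^ d) ≤ (L * (L * (x : ℝ) ^ d)) * (E / (x : ℝ) ^ d) := by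
          apply mul_le_mul_of_nonneg_right _ (by positivity)
          exact hqN.trans (mul_le_mul_of_nonneg_left hNx hL0.le)
      _ = L ^ 2 * E := by field_simp
  have hMq : (M : ℝ) / q ≤ L ^ 2 := by
    rw [div_le_iff₀ hq0]
    calc (M : ℝ) ≤ L * N := hMN
      _ ≤ L * (L * q) := mul_le_mul_of_nonneg_left hNq hL0.le
      _ = L ^ 2 * q := by ring
  have hL2 : 1 ≤ L ^ 2 := one_le_pow₀ hL
  have hW2 : W ≤ (5 * (L ^ 2 * E)) * (2 * (E * d.factorial * L ^ 2)) := by
    rw [hW]
    have h3 : 1 ≤ L ^ 2 * E := one_le_mul_of_one_le_of_one_le hL2 hE1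
    have h4 : 1 ≤ E * d.factorial * L ^ 2 :=
      one_le_mul_of_one_le_of_one_le (one_le_mul_of_one_le_of_one_le hE1 hf1) hL2
    have h5 : E * d.factorial * M / q ≤ E * d.factorial * L ^ 2 := by
      rw [mul_div_assoc]
      exact mul_le_mul_of_nonneg_left hMq (by positivity)
    apply mul_le_mul (by linarith) (by linarith) (by positivity) (by positivity)
  calc (T.card : ℝ) ≤ E * W := h2
    _ ≤ E * ((5 * (L ^ 2 * E)) * (2 * (E * d.factorial * L ^ 2))) :=
        mul_le_mul_of_nonneg_left hW2 (by linarith)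
    _ = 10 * d.factorial * c ^ 3 * L ^ 4 * u ^ (3 * m) := by rw [hE]; ring
    _ ≤ 15 * d.factorial * c ^ 3 * L ^ 4 * u ^ (3 * m + 1) := by
        apply mul_le_mul _ (pow_le_pow_right₀ hu (by omega)) (by positivity) (by positivity)
        have : (0 : ℝ) ≤ d.factorial * c ^ 3 * L ^ 4 := by positivity
        nlinarith
    _ = _ := by push_cast; ring

end Pool.Agent.H56.FP
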